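import Pool.Agent.P.MP_1ec91f_co.Sq.Main

namespace Pool.Agent.Results.MP_1ec91f_co.LogSquareUpperBound

/-- The multiplicity of the second largest eigenvalue of a real symmetric matrix: the eigenvalues
are the roots of the characteristic polynomial, listed with multiplicity in decreasing order. -/
noncomputable def secondMult {n : ℕ} (M : Matrix (Fin n) (Fin n) ℝ) : ℕ :=
  M.charpoly.roots.count ((M.charpoly.roots.sort (· ≥ ·)).getD 1 0)

theorem result (Δ : ℕ) : ∃ N : ℕ, ∀ n : ℕ, N ≤ n →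
    ∀ (G : SimpleGraph (Fin n)) [DecidableRel G.Adj], G.Connected → G.maxDegree ≤ Δ →
    ∀ D : Fin n → ℝ, (secondMult (Matrix.diagonal D + G.adjMatrix ℝ) : ℝ)
      ≤ (64 * Δ + 1) * (n / Real.log n ^ 2) := by
  obtain ⟨N, h⟩ := Pool.Agent.P.MP_1ec91f_co.Sq.upper Δ
  refine ⟨max N 2, fun n hn G _ hG hΔ D => ?_⟩
  have hM := Pool.Agent.P.MP_1ec91f_co.isHermitian_schr (G := G) D
  have h2 : 1 < Fintype.card (Fin n) := by
    rw [Fintype.card_fin]
    exact le_of_max_le_right hn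
  unfold secondMult
  rw [Pool.Agent.P.MP_1ec91f_co.count_second hM ⟨1, h2⟩ rfl]
  exact h n (le_of_max_le_left hn) G hG hΔ D hM ⟨1, h2⟩ rfl

end Pool.Agent.Results.MP_1ec91f_co.LogSquareUpperBound
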