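import Pool.Agent.P.MP_1ec91f_co.CubLower

namespace Pool.Agent.Results.MP_1ec91f_co.SubcubicLowerBound

/-- The second largest eigenvalue of a real symmetric matrix: the eigenvalues are the roots of the
characteristic polynomial, listed with multiplicity in decreasing order. -/
noncomputable def secondEig {n : ℕ} (M : Matrix (Fin n) (Fin n) ℝ) : ℝ :=
  (M.charpoly.roots.sort (· ≥ ·)).getD 1 0

/-- The multiplicity of the second largest eigenvalue. -/
noncomputable def secondMult {n : ℕ} (M : Matrix (Fin n) (Fin n) ℝ) : ℕ :=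
  M.charpoly.roots.count (secondEig M)

theorem result : ∃ N : ℕ, ∀ n : ℕ, N ≤ n →
    ∃ (G : SimpleGraph (Fin n)) (_ : DecidableRel G.Adj),
      G.Connected ∧ G.maxDegree ≤ 3 ∧ secondEig (G.adjMatrix ℝ) = Real.sqrt 7 ∧
      n * Real.exp (-11 * Real.sqrt (Real.log n * Real.log (Real.log n)))
        ≤ (secondMult (G.adjMatrix ℝ) : ℝ) :=
  Pool.Agent.P.MP_1ec91f_co.cub_lower

end Pool.Agent.Results.MP_1ec91f_co.SubcubicLowerBound
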